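import Pool.Agent.Q57.MV.Top

/-!
# The movable cone of the toroidal models of covers of products of projective spaces

Let `F i` be a form of degree `d i` in `n i + 1` variables whose zero set in the projective
`n i`-space is a smooth hypersurface, `i = 1, ..., r`. Let `K` be the function field of an abelian
cover `Y` of the product of the projective `n i`-spaces which is branched along the hypersurfaces
`F i = 0` of the factors: `K` is generated by the affine coordinates and by roots `z j`,
`z j ^ (m j) = ∏ i, (F i (x i) / x i 0 ^ (d i)) ^ (a j i)`, where `m j` divides `a j i * d i`. There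
is no condition on the dimensions `n i ≥ 1` and the degrees.

A prime divisor `P` over `Y` (a divisorial place of `K`) has the vector `multiplicities F d x P` of the
multiplicities `v i` of the hypersurfaces along `P`. The vectors `v ≠ 0` of nonnegative integers with
`m j ∣ ∑ i, a j i * v i` for all `j` are the `Admissible` ones: the nonzero points, in the positive
orthant, of the lattice of the toroidal variety `Y`.

**The varieties.** The toroidal modifications `X` of `Y` are given by the subdivisions (fans) of the
positive orthant into rational polyhedral cones; `fan` is the set of the maximal cones, each given by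
a finite set of admissible generators which span the space. For example, let `Y` be the double cover
of the product of the projective spaces which is branched along the union of the hypersurfaces
`F i = 0`, with `d i = 2 (n i + 1)`: here `z ^ 2 = ∏ i, F i (x i) / x i 0 ^ (d i)`, and the lattice
consists of the vectors with an even sum. Then `K_Y = 0`, and for every triangulation of the simplex
`∑ i, v i = 2` with all its integral points as vertices whose simplices have the minimal volume (there
are many for `r ≥ 3`, related by flops) the modification `X` is a smooth variety with `K_X = 0`,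
projective if the triangulation is regular, of the dimension `∑ i, n i`, with the Picard number
`r (r + 1) / 2` if all `n i ≥ 3`. Similarly for the quotients `Y` of products of cyclic covers `Y i` of
the projective spaces with `K = 0` (double covers, quintic threefolds `w ^ 5 = F`, triple covers of
the projective `3`-space branched along sextics, ...) by groups of diagonal automorphisms which
preserve the volume form, and their crepant toroidal resolutions `X`.

**The divisors.** `D 1, ..., D p` are toroidal `ℚ`-Cartier divisors on `X`: sums of multiples `β i t`
of the hyperplane classes of the factors and of the prime divisors of the boundary of `X`. The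
coefficient of the pullback of `D i` at a prime divisor `P` over `X` is
`coefficient F d x (c i) (β i) P = c i v + ∑ t, β i t * h t`, where `v` is the vector of the
multiplicities, `h t` is minus the minimal order at `P` of the homogeneous coordinates of the `t`-th
factor, and `- c i v = ∑ k, u σ i k * v k` on the cone `σ`. One may take divisors `D i` which generate
all toroidal `ℚ`-Cartier divisors on `X`. If all `n i ≥ 3` then every divisor on `X` is, up to
`ℚ`-linear equivalence, toroidal (Lefschetz; this remark is not used and not proved here).

**The prime divisors on `X`.** The number `logDiscrepancy F d x P` is the log discrepancy along `P` of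
the product of the projective spaces with the boundary `∑ i, (F i = 0)`; it is also the one of `X`
with its boundary. Let `faces` be a set of cones, each generated by some of the generators of a
maximal cone. `Over` are the prime divisors `P` over the open toroidal subset `X°` of `X` which
belongs to `faces`: `v` is in one of the cones in `faces`. `Test` are those with log discrepancy `0`,
or `1` if `v = 0`. If `faces` is the set of the rays of the fan (one generator each), then `X°` is the
complement of the closed strata of codimension two or more, and `Test` are exactly the prime divisors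
on `X`: the components of the boundary (the vector `v` is on a ray, log discrepancy `0`), and the
others (`v = 0`, log discrepancy `1`).

**The theorem.** The real combinations `∑ i, lam i * D i` which are nef at the prime divisors in
`Test`, the ones which are nef over `X°`, and the ones which satisfy the explicit finite system of
linear inequalities `Inequalities` are the same, and they are the combinations with nonnegative real
coefficients of finitely many integral divisors `∑ i, h b i * D i` whose linear systems have no base
points over `X°`.

For the rays this is the movable cone of `X`: the combinations which are nef at the prime divisors on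
`X` are the ones in the closure of the cone of the movable divisors, and the linear systems of the
generators have a base locus of codimension at least two. So the closure of the movable cone (of
toroidal divisors) is a rational polyhedral cone generated by finitely many effective movable
divisors; in particular it is equal to the effective movable cone. For smooth `X` with `K_X = 0` and
all `n i ≥ 3`, for instance for the crepant resolutions of the double covers above, this is the whole
effective movable cone of `X`, and the movable cone conjecture holds for `X`: a group which acts on a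
lattice and preserves a rational polyhedral cone of the full dimension without lines acts by a finite
group, and has a rational polyhedral fundamental domain (this last step is not in the Lean statement).
If `faces` are the maximal cones then `X° = X`, and one obtains the nef cone (this is
`MP_20d318_ag.NefConeOfToroidalModels`).
-/

set_option autoImplicit false

open FF MvPolynomial Pool.Agent.W602.GT

namespace Pool.Agent.Results.MP_e39d36_ag.MovableCones

/-- The form `F` has no singular zeros: its partial derivatives have no common zero but `0`. -/
def Smooth {n : ℕ} (F : MvPolynomial (Fin (n + 1)) ℂ) : Prop :=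
  ∀ x : Fin (n + 1) → ℂ, x ≠ 0 → ∃ l, eval x (pderiv l F) ≠ 0

section fans

variable {r R : ℕ}

/-- The multiplicities which satisfy the divisibility conditions. -/
def Admissible (m : Fin R → ℕ) (a : Fin R → Fin r → ℕ) (v : Fin r → ℕ) : Prop :=
  v ≠ 0 ∧ ∀ j, m j ∣ ∑ i, a j i * v i

/-- The vector `v` is in the cone which is generated by the vectors in `σ`. -/
def InCone (σ : Finset (Fin r → ℕ)) (v : Fin r → ℕ) : Prop :=
  ∃ w : (Fin r → ℕ) → ℚ, (∀ s, 0 ≤ w s) ∧ ∀ k, (v k : ℚ) = ∑ s ∈ σ, w s * s k

/-- `fan` is a finite set of cones, each generated by a finite set of admissible vectors which span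
the whole space, which cover all admissible vectors. -/
structure IsFan (m : Fin R → ℕ) (a : Fin R → Fin r → ℕ) (fan : Finset (Finset (Fin r → ℕ))) :
    Prop where
  adm : ∀ σ ∈ fan, ∀ s ∈ σ, Admissible m a s
  full : ∀ σ ∈ fan, ∀ f : Fin r → ℚ, ∃ q : (Fin r → ℕ) → ℚ, ∀ k, f k = ∑ s ∈ σ, q s * s k
  cover : ∀ v, Admissible m a v → ∃ σ ∈ fan, InCone σ v

end fans

section places

variable {r : ℕ} {n : Fin r → ℕ} {K : Type} [Field K] [Algebra ℂ K]

/-- The affine coordinates of the product of the projective spaces. -/
noncomputable def affine (x : ∀ i, Fin (n i + 1) → K) (b : (i : Fin r) × Fin (n i)) : K :=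
  x b.1 b.2.succ / x b.1 0

/-- The minimal order at `P` of the homogeneous coordinates `y`. -/
noncomputable def minimalOrder {n : ℕ} (y : Fin (n + 1) → K) (P : Place ℂ K) : ℤ :=
  Finset.univ.inf' Finset.univ_nonempty fun j => P.ord (y j)

/-- The multiplicities of the hypersurfaces `F i = 0` along the prime divisor `P`; the `x i j` are the
homogeneous coordinates of the `i`-th factor, which are divided by one of minimal order at `P`. -/
noncomputable def multiplicities (F : ∀ i, MvPolynomial (Fin (n i + 1)) ℂ) (d : Fin r → ℕ)
    (x : ∀ i, Fin (n i + 1) → K) (P : Place ℂ K) (i : Fin r) : ℕ :=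
  (P.ord (aeval (x i) (F i)) - d i * minimalOrder (x i) P).toNat

/-- The coefficient at the prime divisor `P` of the divisor with the function `c` of the
multiplicities and the degrees `β t`: it is `c v` plus `β t` times the coefficient at `P` of the
hyperplane class of the `t`-th factor, which is represented by the divisor with the coefficients
`- minimalOrder (x t) P` (its sections are the linear forms in the `x t j`). -/
noncomputable def coefficient (F : ∀ i, MvPolynomial (Fin (n i + 1)) ℂ) (d : Fin r → ℕ)
    (x : ∀ i, Fin (n i + 1) → K) (c : (Fin r → ℕ) → ℚ) (β : Fin r → ℤ) (P : Place ℂ K) : ℚ :=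
  c (multiplicities F d x P) - ∑ t, (β t : ℚ) * minimalOrder (x t) P

/-- The canonical form of the product of the projective spaces, evaluated at vector fields: the
product of the `x i 0 ^ (n i + 1)`, times the determinant of the derivatives of the affine
coordinates. -/
noncomputable def canonicalForm (x : ∀ i, Fin (n i + 1) → K)
    (D : ((i : Fin r) × Fin (n i)) → Derivation ℂ K K) : K :=
  (∏ i, x i 0 ^ (n i + 1)) * (Matrix.of fun b b' => D b (affine x b')).det

/-- The order of the canonical form along `P`: the minimal order of its values at vector fields which
are regular at `P`. -/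
noncomputable def formOrder (x : ∀ i, Fin (n i + 1) → K) (P : Place ℂ K) : ℤ :=
  sInf {k : ℤ | ∃ D : ((i : Fin r) × Fin (n i)) → Derivation ℂ K K, (∀ b, DerReg P (D b)) ∧
    canonicalForm x D ≠ 0 ∧ P.ord (canonicalForm x D) = k}

/-- The log discrepancy along `P` of the product of the projective spaces, with the boundary
`∑ i, (F i = 0)`: the order along `P` of the logarithmic canonical forms, which are obtained from the
canonical form by the division by the local equations of the hypersurfaces and by the powers
`n i + 1` of coordinates `x i j` of minimal order, plus one. -/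
noncomputable def logDiscrepancy (F : ∀ i, MvPolynomial (Fin (n i + 1)) ℂ) (d : Fin r → ℕ)
    (x : ∀ i, Fin (n i + 1) → K) (P : Place ℂ K) : ℤ :=
  formOrder x P + 1 - ∑ i, (multiplicities F d x P i : ℤ) -
    ∑ i, ((n i : ℤ) + 1) * minimalOrder (x i) P

/-- `P` lies over the open toroidal subset of `X` which belongs to `faces`: the vector of the
multiplicities is in one of the cones. -/
def Over (F : ∀ i, MvPolynomial (Fin (n i + 1)) ℂ) (d : Fin r → ℕ)
    (x : ∀ i, Fin (n i + 1) → K) (faces : Finset (Finset (Fin r → ℕ))) (P : Place ℂ K) : Prop :=
  ∃ τ ∈ faces, InCone τ (multiplicities F d x P)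

open scoped Classical in
/-- `P` lies over the open toroidal subset which belongs to `faces`, and its log discrepancy is `0`,
or `1` if the vector of the multiplicities is `0`. If `faces` is the set of the rays of the fan then
these are the prime divisors on `X`. -/
def Test (F : ∀ i, MvPolynomial (Fin (n i + 1)) ℂ) (d : Fin r → ℕ)
    (x : ∀ i, Fin (n i + 1) → K) (faces : Finset (Finset (Fin r → ℕ))) (P : Place ℂ K) : Prop :=
  Over F d x faces P ∧ logDiscrepancy F d x P = if multiplicities F d x P = 0 then 1 else 0

end places

section sections

variable {K : Type} [Field K] [Algebra ℂ K] {p : ℕ} (N : ℕ) (δ : Fin p → Place ℂ K → ℚ)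

/-- `f` is a section of `∑ i, μ i * D i + j * A`: its order at every prime divisor `P` (every
divisorial place `P` of `K`) is at least `j` times the order of one of the functions in `S`, minus
the coefficient `∑ i, μ i * δ i P` of `∑ i, μ i * D i`. Here `A` is the divisor which is generated by
the finite set `S` of functions; `A = 0` if `S = {1}`. -/
def IsSection (S : Finset K) (μ : Fin p → ℤ) (j : ℕ) (f : K) : Prop :=
  ∀ P : Place ℂ K, Divisorial N P → f = 0 ∨ ∃ s ∈ S, s ≠ 0 ∧
    (j : ℚ) * P.ord s - ∑ i, (μ i : ℚ) * δ i P ≤ P.ord f

/-- The real combination `L = ∑ i, lam i * D i` is nef at the prime divisors in `C`: there is a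
divisor `A` such that for all `M ≥ 1` there is `j ≥ 1` such that for every prime divisor `P` in `C`
there is an integral combination `∑ i, μ i * D i` with `|μ i - j * M * lam i| ≤ j` (so
`∑ i, μ i * D i + j * A` is `j * (M L + A)` up to rounding) such that `∑ i, μ i * D i + j * A` has a
section of the minimal order at `P`. If `C` are the prime divisors on the projective variety `X`,
this means that `L` is in the closure of the cone of the movable divisors (`A` is sufficiently ample:
then the `∑ i, μ i * D i + j * A` are movable, for suitable `j`); if `C` are all prime divisors over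
`X`, it means that `L` is nef. -/
def NefAt (C : Place ℂ K → Prop) (lam : Fin p → ℝ) : Prop :=
  ∃ S : Finset K, (∃ s ∈ S, s ≠ 0) ∧ ∀ M : ℕ, 1 ≤ M → ∃ j : ℕ, 1 ≤ j ∧
    ∀ P : Place ℂ K, Divisorial N P → C P →
      ∃ μ : Fin p → ℤ, (∀ i, |(μ i : ℝ) - j * M * lam i| ≤ j) ∧
        ∃ f : K, f ≠ 0 ∧ IsSection N δ S μ j f ∧ ∀ s ∈ S, s ≠ 0 →
          (P.ord f : ℚ) ≤ j * P.ord s - ∑ i, (μ i : ℚ) * δ i P

/-- The linear system of the integral combination `∑ i, μ i * D i` has no base points over the subset
which belongs to `C`: it has for every prime divisor `P` in `C` a section which does not vanish at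
`P`, that is, its order at `P` is the minimal one. -/
def FreeAt (C : Place ℂ K → Prop) (μ : Fin p → ℤ) : Prop :=
  ∀ P : Place ℂ K, Divisorial N P → C P → ∃ f : K, f ≠ 0 ∧ IsSection N δ {1} μ 0 f ∧
    (P.ord f : ℚ) ≤ - ∑ i, (μ i : ℚ) * δ i P

end sections

/-- The inequalities for the real combination `∑ i, lam i * D i`: for every cone `τ` in `faces` there
is a linear function `y` with the coordinates `≤ (∑ i, lam i * β i t) / d t` whose values at the
generators `s` of all cones of the fan are at least the values there of the support function
`- ∑ i, lam i * c i`, with equality at the generators of `τ`. -/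
def Inequalities {p r : ℕ} (fan faces : Finset (Finset (Fin r → ℕ))) (d : Fin r → ℕ)
    (c : Fin p → (Fin r → ℕ) → ℚ) (β : Fin p → Fin r → ℤ) (lam : Fin p → ℝ) : Prop :=
  ∀ τ ∈ faces, ∃ y : Fin r → ℝ, (∀ t, (d t : ℝ) * y t ≤ ∑ i, lam i * β i t) ∧
    (∀ σ ∈ fan, ∀ s ∈ σ, - ∑ i, lam i * c i s ≤ ∑ k, y k * (s k : ℝ)) ∧
    ∀ s ∈ τ, - ∑ i, lam i * c i s = ∑ k, y k * (s k : ℝ)

/-- **The movable cone.** Let `K` be the function field of an abelian cover `Y` of the product of the
projective `n i`-spaces which is branched along smooth hypersurfaces `F i = 0` of the factors, `X` the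
toroidal modification of `Y` which is given by `fan`, and `D i`, `i < p`, toroidal `ℚ`-Cartier
divisors on `X` with the degrees `β i t` and the coefficients `c i`. Let `faces` be a set of cones,
each generated by some of the generators of a cone of `fan`; for instance the set of the rays, then
`Test` are the prime divisors on `X`. There are finitely many integral combinations
`∑ i, h b i * D i` without base points over the open subset of `X` which belongs to `faces` such that
a real combination is nef at the prime divisors in `Test` (for the rays: it is in the closure of the
movable cone) if and only if it is nef at all prime divisors over the open subset, if and only if it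
satisfies the inequalities, if and only if it is a combination of these with nonnegative real
coefficients. -/
theorem result (r N R p : ℕ) (n d : Fin r → ℕ) (hr : 1 ≤ r) (hn : ∀ i, 1 ≤ n i)
    (hd : ∀ i, 1 ≤ d i) (hN : N = ∑ i, n i)
    (F : ∀ i, MvPolynomial (Fin (n i + 1)) ℂ) (hF : ∀ i, (F i).IsHomogeneous (d i))
    (hs : ∀ i, Smooth (F i)) (m : Fin R → ℕ) (hm : ∀ j, 1 ≤ m j) (a : Fin R → Fin r → ℕ)
    (hdiv : ∀ j i, m j ∣ a j i * d i)
    (K : Type) [Field K] [Algebra ℂ K] (x : ∀ i, Fin (n i + 1) → K) (hx0 : ∀ i, x i 0 ≠ 0)
    (hbas : IsTranscendenceBasis ℂ (affine x)) (z : Fin R → K)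
    (hz : ∀ j, z j ^ m j = ∏ i, (aeval (x i) (F i) / x i 0 ^ d i) ^ a j i)
    (hgen : IntermediateField.adjoin ℂ (Set.range (affine x) ∪ Set.range z) = ⊤)
    (fan : Finset (Finset (Fin r → ℕ))) (hfan : IsFan m a fan)
    (c : Fin p → (Fin r → ℕ) → ℚ) (hc0 : ∀ i, c i 0 = 0) (β : Fin p → Fin r → ℤ)
    (u : Finset (Fin r → ℕ) → Fin p → Fin r → ℚ)
    (hlin : ∀ σ ∈ fan, ∀ i v, Admissible m a v → InCone σ v → - c i v = ∑ k, u σ i k * v k)
    (δ : Fin p → Place ℂ K → ℚ) (hδ : ∀ i P, δ i P = coefficient F d x (c i) (β i) P)
    (faces : Finset (Finset (Fin r → ℕ)))
    (hfaces : ∀ τ ∈ faces, τ.Nonempty ∧ ∃ σ ∈ fan, τ ⊆ σ) :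
    ∃ (N0 : ℕ) (h : Fin N0 → Fin p → ℤ), (∀ b, FreeAt N δ (Over F d x faces) (h b)) ∧
      ∀ lam : Fin p → ℝ,
        (NefAt N δ (Test F d x faces) lam ↔ NefAt N δ (Over F d x faces) lam) ∧
        (NefAt N δ (Test F d x faces) lam ↔ Inequalities fan faces d c β lam) ∧
        (NefAt N δ (Test F d x faces) lam ↔
          ∃ t : Fin N0 → ℝ, (∀ b, 0 ≤ t b) ∧ ∀ i, lam i = ∑ b, t b * h b i) := by
  obtain ⟨N0, h, h1, h2⟩ := Pool.Agent.Q57.MV.main_mov (N := N) hr hn hN hd hF hs hx0 hbas hm
    hdiv hz hgen (S := fan) ⟨hfan.adm, hfan.full, hfan.cover⟩ hc0 (u := u) hlin (β := β) hδ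
    (T := faces) hfaces
  have hTest : Test F d x faces = Pool.Agent.Q57.MV.OpD F d x faces := by
    funext P
    apply propext
    unfold Test Pool.Agent.Q57.MV.OpD
    refine and_congr Iff.rfl ?_
    have h3 : logDiscrepancy F d x P = Pool.Agent.Q57.TC.lD F d x P := rfl
    rw [h3]
    by_cases h4 : multiplicities F d x P = 0
    · rw [if_pos h4, if_pos (show Pool.Agent.Q57.TQ.mulQ F d x P = 0 from h4)]
    · rw [if_neg h4, if_neg (show ¬ Pool.Agent.Q57.TQ.mulQ F d x P = 0 from h4)]
  rw [hTest]
  refine ⟨N0, h, fun b P hP hPC => ?_, h2⟩
  obtain ⟨f, hf0, hf, hle⟩ := h1 b P hP hPC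
  refine ⟨f, hf0, fun P hP => (hf P hP).imp id fun h5 => ⟨1, by simp, one_ne_zero, ?_⟩, hle⟩
  rw [P.ord_one]
  push_cast at h5 ⊢
  linarith

end Pool.Agent.Results.MP_e39d36_ag.MovableCones
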